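import Mathlib
import Pool.Agent.H759R2.Kad.Props6

open scoped ComplexOrder InnerProductSpace ComplexConjugate
open Finset

noncomputable section

namespace H759R2.Kad

universe u v

namespace W12aux

variable {A : Type u} [CStarAlgebra A]

/-- partial sums -/
def S (v : ℕ → A) (n : ℕ) : A := ∑ i ∈ range n, v i

def P (v : ℕ → A) (n : ℕ) : A := ∑ i ∈ range n, star (v i) * v i

theorem star_S_mul (v : ℕ → A) (h : ∀ i j, i ≠ j → star (v i) * v j = 0) (n : ℕ) :
    star (S v n) * S v n = P v n := by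
  unfold S P
  rw [star_sum, sum_mul_sum]
  refine sum_congr rfl fun i hi => ?_
  rw [sum_eq_single_of_mem i hi]
  intro j _ hj
  exact h i j (Ne.symm hj)

theorem mul_e (v : ℕ → A) (h1 : ∀ i, PIs (v i)) (h : ∀ i j, i ≠ j → v i * star (v j) = 0)
    (m i : ℕ) (hi : i < m) : S v m * (star (v i) * v i) = v i := by
  unfold S
  rw [sum_mul, sum_eq_single_of_mem i (mem_range.2 hi)]
  · rw [← mul_assoc]; exact h1 i
  · intro j _ hj
    rw [← mul_assoc, h j i hj, zero_mul]

theorem S_mul_P (v : ℕ → A) (h1 : ∀ i, PIs (v i)) (h : ∀ i j, i ≠ j → v i * star (v j) = 0)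
    (m n : ℕ) (hn : n ≤ m) : S v m * P v n = S v n := by
  unfold P
  rw [mul_sum]
  conv_rhs => unfold S
  refine sum_congr rfl fun i hi => ?_
  exact mul_e v h1 h m i (lt_of_lt_of_le (mem_range.1 hi) hn)

theorem P_mul_e (v : ℕ → A) (h1 : ∀ i, PIs (v i)) (h : ∀ i j, i ≠ j → v i * star (v j) = 0)
    (m i : ℕ) (hi : i < m) : P v m * (star (v i) * v i) = star (v i) * v i := by
  unfold P
  rw [sum_mul, sum_eq_single_of_mem i (mem_range.2 hi)]
  · have := h1 i
    unfold PIs at this
    rw [mul_assoc, ← mul_assoc (v i), this]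
  · intro j _ hj
    rw [mul_assoc, ← mul_assoc (v j), h j i hj, zero_mul, mul_zero]

end W12aux

open W12aux in
theorem prove6_seq : W_seq.{u} := by
  intro A _ hA v hv hvv
  have h1 : ∀ i j, i ≠ j → star (v i) * v j = 0 := fun i j hij => (hvv i j hij).1
  have h2 : ∀ i j, i ≠ j → v i * star (v j) = 0 := fun i j hij => (hvv i j hij).2
  have hext : ∀ n m, n ≤ m → Exd (S v n) (S v m) := by
    intro n m hnm
    unfold Exd
    rw [star_S_mul v h1, S_mul_P v hv h2 m n hnm]
  have hpis : ∀ n, PIs (S v n) := by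
    intro n
    unfold PIs
    rw [mul_assoc, star_S_mul v h1, S_mul_P v hv h2 n n le_rfl]
  have hC : IsChn (Set.range (S v)) := by
    refine ⟨Set.range_nonempty _, ?_, ?_⟩
    · rintro _ ⟨n, rfl⟩; exact hpis n
    · rintro _ ⟨n, rfl⟩ _ ⟨m, rfl⟩
      rcases le_total n m with h | h
      · exact Or.inl (hext n m h)
      · exact Or.inr (hext m n h)
  obtain ⟨V, hV⟩ := hA.chain _ hC
  have hann : ∀ a b, (∀ i, a * v i * b = 0) → a * V * b = 0 := by
    intro a b hab
    refine hV.ann a b ?_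
    rintro _ ⟨n, rfl⟩
    unfold S
    rw [mul_sum, sum_mul]
    exact sum_eq_zero fun i _ => hab i
  have hVe : ∀ i, V * (star (v i) * v i) = v i := by
    intro i
    have h3 := hV.ext (S v (i + 1)) ⟨i + 1, rfl⟩
    unfold Exd at h3
    rw [star_S_mul v h1] at h3
    calc V * (star (v i) * v i) = V * (P v (i + 1) * (star (v i) * v i)) := by
          rw [P_mul_e v hv h2 (i + 1) i (Nat.lt_succ_self i)]
      _ = (V * P v (i + 1)) * (star (v i) * v i) := by rw [mul_assoc]
      _ = S v (i + 1) * (star (v i) * v i) := by rw [h3]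
      _ = v i := mul_e v hv h2 (i + 1) i (Nat.lt_succ_self i)
  refine ⟨V, hV.pi, hVe, ?_, hann⟩
  intro i
  have hpi := hv i
  unfold PIs at hpi
  have h3 := hann (v i * star (v i)) (1 - star (v i) * v i) (by
    intro j
    rcases eq_or_ne j i with rfl | hj
    · rw [hpi, mul_sub, mul_one, ← mul_assoc, hpi, sub_self]
    · rw [mul_assoc (v i), h1 i j (Ne.symm hj), mul_zero, zero_mul])
  rw [mul_sub, mul_one, sub_eq_zero] at h3
  rw [h3, mul_assoc, hVe i, hpi]

end H759R2.Kad
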