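import Mathlib
import Pool.Agent.H759R2.Kad.Props6

open scoped ComplexOrder InnerProductSpace ComplexConjugate
open Finset

noncomputable section

namespace H759R2.Kad

universe u v

theorem prove6_inf (h : W_seq.{u}) : W_inf.{u} := by
  intro A _ hA s hs hfin v p hp hv hsv
  -- basic facts
  have hvp : ∀ i, v i * p = v i := by
    intro i
    have h1 : star (v i) * v i = p := by have := hv i i; simpa using this
    have h2 : star (v i - v i * p) * (v i - v i * p) = 0 := by
      have e1 : star (v i - v i * p) = star (v i) - p * star (v i) := by
        rw [star_sub, star_mul, hp.1]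
      rw [e1]
      have : (star (v i) - p * star (v i)) * (v i - v i * p) =
        star (v i) * v i - (star (v i) * v i) * p - p * (star (v i) * v i) +
          p * (star (v i) * v i) * p := by noncomm_ring
      rw [this, h1, hp.2, hp.2]; noncomm_ring
    have h3 := (CStarRing.star_mul_self_eq_zero_iff _).1 h2
    exact (sub_eq_zero.1 h3).symm
  have hvv : ∀ i, star (v i) * v i = p := fun i => by have := hv i i; simpa using this
  have hvn : ∀ i j, i ≠ j → star (v i) * v j = 0 := fun i j hij => by
    have := hv i j; simpa [hij] using this
  -- the projections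
  set e : ℕ → A := fun i => v i * star (v i) with he
  have hes : ∀ i, star (e i) = e i := by intro i; simp [he]
  have hee : ∀ i, e i * e i = e i := by
    intro i
    calc e i * e i = v i * (star (v i) * v i) * star (v i) := by simp only [he]; noncomm_ring
      _ = e i := by rw [hvv, hvp]
  have hen : ∀ i j, i ≠ j → e i * e j = 0 := by
    intro i j hij
    calc e i * e j = v i * (star (v i) * v j) * star (v j) := by simp only [he]; noncomm_ring
      _ = 0 := by rw [hvn i j hij]; simp
  have hse : ∀ i, s * e i = e i := by
    intro i; simp only [he]; rw [← mul_assoc, hsv]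
  -- the partial isometries
  set w : ℕ → A := fun i => v (i + 1) * star (v i) with hw
  have hww : ∀ i j, star (w i) * w j = if i = j then e i else 0 := by
    intro i j
    have : star (w i) * w j = v i * (star (v (i + 1)) * v (j + 1)) * star (v j) := by
      simp only [hw, star_mul, star_star]; noncomm_ring
    rw [this]
    split_ifs with hij
    · subst hij; rw [hvv, hvp]
    · rw [hvn _ _ (by omega)]; simp
  have hww' : ∀ i j, w i * star (w j) = if i = j then e (i + 1) else 0 := by
    intro i j
    have : w i * star (w j) = v (i + 1) * (star (v i) * v j) * star (v (j + 1)) := by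
      simp only [hw, star_mul, star_star]; noncomm_ring
    rw [this]
    split_ifs with hij
    · subst hij; rw [hvv, hvp]
    · rw [hvn _ _ hij]; simp
  have hwe : ∀ i, w i * e i = w i := by
    intro i
    calc w i * e i = v (i + 1) * (star (v i) * v i) * star (v i) := by
          simp only [hw, he]; noncomm_ring
      _ = w i := by rw [hvv, hvp]
  have hew : ∀ i, e (i + 1) * w i = w i := by
    intro i
    calc e (i + 1) * w i = v (i + 1) * (star (v (i + 1)) * v (i + 1)) * star (v i) := by
          simp only [hw, he]; noncomm_ring
      _ = w i := by rw [hvv, hvp]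
  -- the sums
  obtain ⟨E, -, hE1, hE2, hE3⟩ := h A hA e (by
    intro i; unfold PIs; rw [hes, hee, hee]) (by
    intro i j hij; rw [hes, hes]; exact ⟨hen i j hij, hen i j hij⟩)
  simp only [hes, hee] at hE1 hE2
  obtain ⟨U, -, hU1, hU2, hU3⟩ := h A hA w (by
    intro i; unfold PIs
    have := hww' i i
    rw [if_pos rfl] at this
    rw [this, hew]) (by
    intro i j hij
    have h1 := hww i j
    have h2 := hww' i j
    rw [if_neg hij] at h1 h2
    exact ⟨h1, h2⟩)
  -- E is a projection
  have hEE : E * E = E := by
    have := hE3 (E - 1) 1 (by intro i; rw [sub_mul, one_mul, hE1]; simp)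
    rw [mul_one, sub_mul, one_mul, sub_eq_zero] at this
    exact this
  have hEE' : star E * E = E := by
    have := hE3 (star E - 1) 1 (by
      intro i
      have h1 : star E * e i = e i := by
        have := congrArg star (hE2 i)
        rwa [star_mul, hes] at this
      rw [sub_mul, one_mul, h1]; simp)
    rw [mul_one, sub_mul, one_mul, sub_eq_zero] at this
    exact this
  have hEs : star E = E := by
    have := congrArg star hEE'
    rw [star_mul, star_star] at this
    rw [← this, hEE']
  have hsE : s * E = E := by
    have := hE3 (s - 1) 1 (by intro i; rw [sub_mul, one_mul, hse]; simp)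
    rw [mul_one, sub_mul, one_mul, sub_eq_zero] at this
    exact this
  have hEs' : E * s = E := by
    have := congrArg star hsE
    rwa [star_mul, hs.1, hEs] at this
  -- U
  have hUE : U * E = U := by
    have := hU3 1 (1 - E) (by
      intro i
      rw [one_mul, ← hwe i, mul_assoc, mul_sub, mul_one, hE2, sub_self, mul_zero])
    rw [one_mul, mul_sub, mul_one, sub_eq_zero] at this
    exact this.symm
  have hEU : E * U = U := by
    have := hU3 (1 - E) 1 (by
      intro i
      rw [mul_one, ← hew i, ← mul_assoc, sub_mul, one_mul, hE1, sub_self, zero_mul])
    rw [mul_one, sub_mul, one_mul, sub_eq_zero] at this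
    exact this.symm
  have hwi : ∀ i, star U * w i = e i := by
    intro i
    have h1 : star (w i) * U = e i := by
      have h2 := hU2 i
      have h3 : star (w i) * (w i * star (w i) * U) = star (w i) * w i := by rw [h2]
      have h4 : star (w i) * (w i * star (w i) * U) = (star (w i) * w i) * star (w i) * U := by
        noncomm_ring
      have h5 := hww i i
      rw [if_pos rfl] at h5
      have h6 : e i * star (w i) = star (w i) := by
        have := congrArg star (hwe i)
        rwa [star_mul, hes] at this
      rw [h4, h5, h6] at h3
      exact h3
    have := congrArg star h1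
    rwa [star_mul, star_star, hes] at this
  have hUU : star U * U = E := by
    have h1 : ∀ i, U * e i = w i := by
      intro i
      have := hU1 i
      have h5 := hww i i
      rw [if_pos rfl] at h5
      rwa [h5] at this
    have := hE3 (star U * U - E) 1 (by
      intro i
      rw [mul_one, sub_mul, mul_assoc, h1, hwi, hE1, sub_self])
    rw [mul_one, sub_mul, hEE, sub_eq_zero, mul_assoc, hUE] at this
    exact this
  have hsU : s * U = U := by rw [← hEU, ← mul_assoc, hsE]
  -- T
  have hT := hfin (U + (s - E)) (by
    have h1 : (s - E) * U = 0 := by rw [sub_mul, hsU, hEU, sub_self]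
    have h2 : star U * (s - E) = 0 := by
      have := congrArg star h1
      rwa [star_mul, star_sub, hs.1, hEs, star_zero] at this
    rw [star_add, star_sub, hs.1, hEs]
    have : (star U + (s - E)) * (U + (s - E)) =
      star U * U + star U * (s - E) + (s - E) * U + (s * s - s * E - E * s + E * E) := by
      noncomm_ring
    rw [this, h1, h2, hUU, hs.2, hsE, hEs', hEE]; abel) (by
    rw [mul_add, mul_sub, hsU, hs.2, hsE])
  have hUU' : U * star U = E := by
    have h1 : U * (s - E) = 0 := by
      rw [← hUE, mul_assoc, mul_sub, hEs', hEE, sub_self, mul_zero]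
    have h2 : (s - E) * star U = 0 := by
      have := congrArg star h1
      rwa [star_mul, star_sub, hs.1, hEs, star_zero] at this
    rw [star_add, star_sub, hs.1, hEs] at hT
    have h3 : (U + (s - E)) * (star U + (s - E)) =
      U * star U + U * (s - E) + (s - E) * star U + (s * s - s * E - E * s + E * E) := by
      noncomm_ring
    rw [h3, h1, h2, hs.2, hsE, hEs', hEE] at hT
    have h4 : U * star U + 0 + 0 + (s - E - E + E) - s = s - s := by rw [hT]
    have h5 : U * star U + 0 + 0 + (s - E - E + E) - s = U * star U - E := by abel
    rw [h5, sub_self, sub_eq_zero] at h4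
    exact h4
  have h0 : e 0 * U = 0 := by
    have := hU3 (e 0) 1 (by
      intro i
      rw [mul_one, ← hew i, ← mul_assoc, hen 0 (i + 1) (by omega), zero_mul])
    simpa using this
  have h1 : e 0 = 0 := by
    rw [← hE2 0, ← hUU', ← mul_assoc, h0, zero_mul]
  have h2 : v 0 = 0 := by
    have : e 0 * v 0 = v 0 := by simp only [he]; rw [mul_assoc, hvv, hvp]
    rw [← this, h1, zero_mul]
  rw [← hvv 0, h2]; simp

end H759R2.Kad
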