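import Mathlib
import Pool.Agent.H759R2.Kad.Props7

open scoped ComplexOrder InnerProductSpace ComplexConjugate
open Finset

noncomputable section

namespace H759R2.Kad

universe u v

namespace Q17aux

section dual

variable {H : Type v} [NormedAddCommGroup H] [InnerProductSpace ℂ H] [CompleteSpace H]

/-- From column bounds of the adjoints to row bounds. -/
theorem row_of_col {κ : Type*} [Fintype κ] (T : κ → (H →L[ℂ] H)) (B : ℝ) (hB : 0 ≤ B)
    (h : ∀ u : H, ∑ k, ‖star (T k) u‖ ^ 2 ≤ B * ‖u‖ ^ 2) (η : κ → H) :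
    ‖∑ k, T k (η k)‖ ^ 2 ≤ B * ∑ k, ‖η k‖ ^ 2 := by
  set u := ∑ k, T k (η k) with hu
  have h1 : ‖u‖ ^ 2 ≤ ∑ k, ‖star (T k) u‖ * ‖η k‖ := by
    have e1 : ((‖u‖ ^ 2 : ℝ) : ℂ) = ∑ k, ⟪star (T k) u, η k⟫_ℂ := by
      have : ((‖u‖ ^ 2 : ℝ) : ℂ) = ⟪u, u⟫_ℂ := by
        rw [inner_self_eq_norm_sq_to_K]; push_cast; rfl
      rw [this]
      conv_lhs => rw [hu]
      rw [← hu, inner_sum]
      refine sum_congr rfl fun k _ => ?_
      rw [ContinuousLinearMap.star_eq_adjoint, ContinuousLinearMap.adjoint_inner_left]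
    have e2 : ‖u‖ ^ 2 = ‖((‖u‖ ^ 2 : ℝ) : ℂ)‖ := by
      rw [Complex.norm_real, Real.norm_of_nonneg (by positivity)]
    rw [e2, e1]
    refine (norm_sum_le _ _).trans (sum_le_sum fun k _ => ?_)
    exact norm_inner_le_norm _ _
  have h2 : (∑ k, ‖star (T k) u‖ * ‖η k‖) ^ 2 ≤
      (∑ k, ‖star (T k) u‖ ^ 2) * ∑ k, ‖η k‖ ^ 2 := sum_mul_sq_le_sq_mul_sq _ _ _
  have h3 : (‖u‖ ^ 2) ^ 2 ≤ (B * ‖u‖ ^ 2) * ∑ k, ‖η k‖ ^ 2 := by
    refine (pow_le_pow_left₀ (by positivity) h1 2).trans (h2.trans ?_)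
    exact mul_le_mul_of_nonneg_right (h u) (sum_nonneg fun _ _ => by positivity)
  rcases eq_or_ne (‖u‖ ^ 2) 0 with h0 | h0
  · rw [h0]
    exact mul_nonneg hB (sum_nonneg fun _ _ => by positivity)
  · have h4 : 0 < ‖u‖ ^ 2 := lt_of_le_of_ne (by positivity) (Ne.symm h0)
    have h5 : ‖u‖ ^ 2 * ‖u‖ ^ 2 ≤ ‖u‖ ^ 2 * (B * ∑ k, ‖η k‖ ^ 2) := by nlinarith
    exact le_of_mul_le_mul_left h5 h4

end dual

section wst

variable {F : Type u} [CStarAlgebra F]
variable {H : Type v} [NormedAddCommGroup H] [InnerProductSpace ℂ H] [CompleteSpace H]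

/-- the homomorphism `a ↦ w(a*)*` -/
def wst (w : F →ₗ[ℂ] (H →L[ℂ] H)) : F →ₗ[ℂ] (H →L[ℂ] H) where
  toFun a := star (w (star a))
  map_add' a b := by simp only [star_add, map_add]
  map_smul' c a := by
    simp only [star_smul, map_smul, RingHom.id_apply, RCLike.star_def, Complex.conj_conj]

theorem wst_apply (w : F →ₗ[ℂ] (H →L[ℂ] H)) (a : F) : wst w a = star (w (star a)) := rfl

theorem wst_hom {w : F →ₗ[ℂ] (H →L[ℂ] H)} (hw : IsHom w) : IsHom (wst w) where
  mul a b := by rw [wst_apply, star_mul, hw.mul, star_mul]; rfl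
  one := by rw [wst_apply, star_one, hw.one, star_one]

theorem wst_norm {w : F →ₗ[ℂ] (H →L[ℂ] H)} {c : ℝ} (hc : ∀ a, ‖w a‖ ≤ c * ‖a‖) (a : F) :
    ‖wst w a‖ ≤ c * ‖a‖ := by
  rw [wst_apply, norm_star]
  exact (hc _).trans (by rw [norm_star])

/-- evaluation at a vector -/
def evw (w : F →ₗ[ℂ] (H →L[ℂ] H)) (ξ : H) : F →ₗ[ℂ] H where
  toFun a := w a ξ
  map_add' a b := by simp
  map_smul' c a := by simp

variable [PartialOrder F] [StarOrderedRing F]

theorem col (h : St_gt.{u, v}) (w : F →ₗ[ℂ] (H →L[ℂ] H)) (c : ℝ) (hc0 : 0 ≤ c)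
    (hc : ∀ a, ‖w a‖ ≤ c * ‖a‖) (κ : Type) [Fintype κ] (y : κ → F) (ξ : H) :
    ∑ k, ‖w (y k) ξ‖ ^ 2 ≤
      3 * c ^ 2 * (‖∑ k, star (y k) * y k‖ + ‖∑ k, y k * star (y k)‖) * ‖ξ‖ ^ 2 := by
  have := h F H (evw w ξ) (c * ‖ξ‖) (by positivity) (by
    intro b
    change ‖w b ξ‖ ≤ _
    calc ‖w b ξ‖ ≤ ‖w b‖ * ‖ξ‖ := (w b).le_opNorm ξ
      _ ≤ (c * ‖b‖) * ‖ξ‖ := mul_le_mul_of_nonneg_right (hc b) (norm_nonneg _)
      _ = c * ‖ξ‖ * ‖b‖ := by ring) κ y
  change ∑ k, ‖w (y k) ξ‖ ^ 2 ≤ _ at this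
  refine this.trans (le_of_eq ?_)
  ring

theorem row (h : St_gt.{u, v}) (w : F →ₗ[ℂ] (H →L[ℂ] H)) (c : ℝ) (hc0 : 0 ≤ c)
    (hc : ∀ a, ‖w a‖ ≤ c * ‖a‖) (κ : Type) [Fintype κ] (y : κ → F) (η : κ → H) :
    ‖∑ k, w (y k) (η k)‖ ^ 2 ≤
      3 * c ^ 2 * (‖∑ k, star (y k) * y k‖ + ‖∑ k, y k * star (y k)‖) * ∑ k, ‖η k‖ ^ 2 := by
  refine row_of_col (fun k => w (y k)) _ (by positivity) ?_ η
  intro u
  have := col h (wst w) c hc0 (wst_norm hc) κ (fun k => star (y k)) u
  simp only [wst_apply, star_star] at this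
  rw [add_comm ‖∑ k, y k * star (y k)‖] at this
  exact this

end wst

section isom

variable {F : Type u} [CStarAlgebra F]

/-- isometries with orthogonal ranges -/
def SS (s₁ s₂ : F) (k : ℕ) : F := s₂ ^ k * s₁

theorem star_pow_mul_pow {s : F} (hs : star s * s = 1) (k : ℕ) : star s ^ k * s ^ k = 1 := by
  induction k with
  | zero => simp
  | succ k ih =>
    rw [pow_succ, pow_succ', mul_assoc, ← mul_assoc (star s) s, hs, one_mul, ih]

theorem SS_rel {s₁ s₂ : F} (h1 : star s₁ * s₁ = 1) (h2 : star s₂ * s₂ = 1)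
    (h12 : star s₁ * s₂ = 0) (k l : ℕ) :
    star (SS s₁ s₂ k) * SS s₁ s₂ l = if k = l then 1 else 0 := by
  have h21 : star s₂ * s₁ = 0 := by
    have := congrArg star h12
    rwa [star_mul, star_star, star_zero] at this
  have key : ∀ k l, k < l → star (SS s₁ s₂ k) * SS s₁ s₂ l = 0 := by
    intro k l hkl
    obtain ⟨m, rfl⟩ := Nat.exists_eq_add_of_lt hkl
    unfold SS
    rw [star_mul, star_pow]
    have : s₂ ^ (k + m + 1) = s₂ ^ k * (s₂ * s₂ ^ m) := by
      rw [← pow_succ', ← pow_add]; congr 1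
    rw [this]
    have e : star s₁ * star s₂ ^ k * (s₂ ^ k * (s₂ * s₂ ^ m) * s₁) =
      star s₁ * (star s₂ ^ k * s₂ ^ k) * s₂ * (s₂ ^ m * s₁) := by noncomm_ring
    rw [e, star_pow_mul_pow h2, mul_one, h12, zero_mul]
  split_ifs with hkl
  · subst hkl
    unfold SS
    rw [star_mul, star_pow]
    have e : star s₁ * star s₂ ^ k * (s₂ ^ k * s₁) = star s₁ * (star s₂ ^ k * s₂ ^ k) * s₁ := by
      noncomm_ring
    rw [e, star_pow_mul_pow h2, mul_one, h1]
  · rcases Nat.lt_or_gt_of_ne hkl with h | h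
    · exact key k l h
    · have := congrArg star (key l k h)
      rwa [star_mul, star_star, star_zero] at this

variable [PartialOrder F] [StarOrderedRing F]

omit [PartialOrder F] [StarOrderedRing F] in
/-- The sum of the range projections has norm at most one. -/
theorem norm_ranges {N : ℕ} (S : Fin N → F) (hS : ∀ i j, star (S i) * S j = if i = j then 1 else 0) :
    ‖∑ j, S j * star (S j)‖ ≤ 1 := by
  set E := ∑ j, S j * star (S j) with hE
  have hEs : star E = E := by rw [hE, star_sum]; simp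
  have hEE : E * E = E := by
    rw [hE, sum_mul_sum]
    refine sum_congr rfl fun i _ => ?_
    rw [sum_eq_single i]
    · calc S i * star (S i) * (S i * star (S i)) = S i * (star (S i) * S i) * star (S i) := by
            noncomm_ring
        _ = S i * star (S i) := by rw [hS]; simp
    · intro j _ hj
      calc S i * star (S i) * (S j * star (S j)) = S i * (star (S i) * S j) * star (S j) := by
            noncomm_ring
        _ = 0 := by rw [hS, if_neg (Ne.symm hj)]; simp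
    · simp
  have h1 : ‖E‖ * ‖E‖ = ‖E‖ := by
    rw [← CStarRing.norm_star_mul_self, hEs, hEE]
  nlinarith [norm_nonneg E]

theorem norm_conj {N : ℕ} (S : Fin N → F) (hS : ∀ i j, star (S i) * S j = if i = j then 1 else 0)
    (b : F) (hb : 0 ≤ b) : ‖∑ j, S j * b * star (S j)‖ ≤ ‖b‖ := by
  have h1 : 0 ≤ ∑ j, S j * b * star (S j) :=
    sum_nonneg fun j _ => star_right_conjugate_nonneg hb (S j)
  have h2 : ∑ j, S j * b * star (S j) ≤ ∑ j, S j * (algebraMap ℝ F ‖b‖) * star (S j) := by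
    refine sum_le_sum fun j _ => ?_
    exact star_right_conjugate_le_conjugate (IsSelfAdjoint.of_nonneg hb).le_algebraMap_norm_self (S j)
  have h3 : ∑ j, S j * (algebraMap ℝ F ‖b‖) * star (S j) = ‖b‖ • ∑ j, S j * star (S j) := by
    rw [smul_sum]
    refine sum_congr rfl fun j _ => ?_
    rw [Algebra.algebraMap_eq_smul_one, mul_smul_comm, mul_one, smul_mul_assoc]
  rw [h3] at h2
  calc ‖∑ j, S j * b * star (S j)‖ ≤ ‖‖b‖ • ∑ j, S j * star (S j)‖ :=
        CStarAlgebra.norm_le_norm_of_nonneg_of_le h1 h2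
    _ ≤ ‖b‖ * 1 := by
        rw [norm_smul, norm_norm]
        exact mul_le_mul_of_nonneg_left (norm_ranges S hS) (norm_nonneg _)
    _ = ‖b‖ := mul_one _

end isom

end Q17aux

open Q17aux in
theorem prove7_icol (h : St_gt.{u, v}) : Q_icol.{u, v} := by
  intro F _ _ _ s₁ s₂ h1 h2 h12 H _ _ _ w hw c hc1 hc n x ξ
  have hc0 : 0 ≤ c := by linarith
  set a := ‖∑ i, star (x i) * x i‖ with ha
  set b := ‖∑ i, x i * star (x i)‖ with hb
  -- the bound for every `N`
  have key : ∀ N : ℕ, 0 < N → ∑ i, ‖w (x i) ξ‖ ^ 2 ≤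
      9 * c ^ 4 * (1 + 1 / (N : ℝ)) * (a + b * (1 / (N : ℝ))) * ‖ξ‖ ^ 2 := by
    intro N hN
    have hN' : (0 : ℝ) < N := by exact_mod_cast hN
    set r : ℝ := (√N)⁻¹ with hr
    have hrr : r * r = 1 / (N : ℝ) := by
      rw [hr, ← mul_inv, Real.mul_self_sqrt hN'.le, one_div]
    have hrrC : (r : ℂ) * (r : ℂ) = ((1 / (N : ℝ) : ℝ) : ℂ) := by rw [← hrr]; push_cast; rfl
    set S : Fin N → F := fun j => SS s₁ s₂ j with hSdef
    have hS : ∀ i j, star (S i) * S j = if i = j then 1 else 0 := by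
      intro i j
      simp only [hSdef]
      rw [SS_rel h1 h2 h12]
      simp [Fin.ext_iff]
    have hSi : ∀ i, star (S i) * S i = 1 := fun i => by rw [hS]; simp
    -- the family
    let y : Fin n × Fin N → F := fun p => (r : ℂ) • (S p.2 * x p.1)
    have hy1 : ∑ p, star (y p) * y p = ∑ i, star (x i) * x i := by
      rw [Fintype.sum_prod_type]
      refine sum_congr rfl fun i _ => ?_
      have : ∀ j, star (y (i, j)) * y (i, j) = ((1 / (N : ℝ) : ℝ) : ℂ) • (star (x i) * x i) := by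
        intro j
        simp only [y]
        rw [star_smul, smul_mul_smul_comm, star_mul, RCLike.star_def, Complex.conj_ofReal, hrrC]
        congr 1
        calc star (x i) * star (S j) * (S j * x i) = star (x i) * (star (S j) * S j) * x i := by
              noncomm_ring
          _ = star (x i) * x i := by rw [hSi, mul_one]
      simp_rw [this]
      rw [sum_const, card_univ, Fintype.card_fin, ← Nat.cast_smul_eq_nsmul ℂ, smul_smul]
      have : (N : ℂ) * ((1 / (N : ℝ) : ℝ) : ℂ) = 1 := by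
        push_cast
        field_simp
      rw [this, one_smul]
    have hy2 : ‖∑ p, y p * star (y p)‖ ≤ b * (1 / (N : ℝ)) := by
      have e1 : ∑ p, y p * star (y p) =
          ((1 / (N : ℝ) : ℝ) : ℂ) • ∑ j, S j * (∑ i, x i * star (x i)) * star (S j) := by
        rw [Fintype.sum_prod_type, sum_comm, smul_sum]
        refine sum_congr rfl fun j _ => ?_
        rw [mul_sum, sum_mul, smul_sum]
        refine sum_congr rfl fun i _ => ?_
        simp only [y]
        rw [star_smul, smul_mul_smul_comm, star_mul, RCLike.star_def, Complex.conj_ofReal, hrrC]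
        congr 1
        noncomm_ring
      rw [e1, norm_smul, Complex.norm_real, Real.norm_of_nonneg (by positivity), mul_comm]
      refine mul_le_mul_of_nonneg_right ?_ (by positivity)
      exact norm_conj S hS _ (sum_nonneg fun i _ => mul_star_self_nonneg (x i))
    have hcol : ∑ p, ‖w (y p) ξ‖ ^ 2 ≤ 3 * c ^ 2 * (a + b * (1 / (N : ℝ))) * ‖ξ‖ ^ 2 := by
      refine (col h w c hc0 hc (Fin n × Fin N) y ξ).trans ?_
      rw [hy1]
      gcongr
    -- rows
    let z : Fin N → F := fun j => (r : ℂ) • star (S j)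
    have hz1 : ‖∑ j, star (z j) * z j‖ ≤ 1 / (N : ℝ) := by
      have e1 : ∑ j, star (z j) * z j = ((1 / (N : ℝ) : ℝ) : ℂ) • ∑ j, S j * star (S j) := by
        rw [smul_sum]
        refine sum_congr rfl fun j _ => ?_
        simp only [z]
        rw [star_smul, smul_mul_smul_comm, star_star, RCLike.star_def, Complex.conj_ofReal, hrrC]
      rw [e1, norm_smul, Complex.norm_real, Real.norm_of_nonneg (by positivity)]
      have := norm_ranges S hS
      have h0 : (0 : ℝ) ≤ 1 / (N : ℝ) := by positivity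
      nlinarith
    have hz2 : ‖∑ j, z j * star (z j)‖ ≤ 1 := by
      have e1 : ∑ j, z j * star (z j) = 1 := by
        have : ∀ j, z j * star (z j) = ((1 / (N : ℝ) : ℝ) : ℂ) • (1 : F) := by
          intro j
          simp only [z]
          rw [star_smul, smul_mul_smul_comm, star_star, RCLike.star_def, Complex.conj_ofReal, hrrC,
            hSi]
        simp_rw [this]
        rw [sum_const, card_univ, Fintype.card_fin, ← Nat.cast_smul_eq_nsmul ℂ, smul_smul]
        have : (N : ℂ) * ((1 / (N : ℝ) : ℝ) : ℂ) = 1 := by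
          push_cast
          field_simp
        rw [this, one_smul]
      rw [e1]
      have h0 : ‖(1 : F)‖ * ‖(1 : F)‖ = ‖(1 : F)‖ := by
        rw [← CStarRing.norm_star_mul_self]; simp
      nlinarith [norm_nonneg (1 : F)]
    have hx : ∀ i, ‖w (x i) ξ‖ ^ 2 ≤
        3 * c ^ 2 * (1 + 1 / (N : ℝ)) * ∑ j, ‖w (y (i, j)) ξ‖ ^ 2 := by
      intro i
      have e1 : w (x i) ξ = ∑ j, w (z j) (w (y (i, j)) ξ) := by
        have : ∀ j, w (z j) (w (y (i, j)) ξ) = w (((1 / (N : ℝ) : ℝ) : ℂ) • x i) ξ := by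
          intro j
          have e2 : z j * y (i, j) = ((1 / (N : ℝ) : ℝ) : ℂ) • x i := by
            simp only [z, y]
            rw [smul_mul_smul_comm, hrrC, ← mul_assoc, hSi, one_mul]
          rw [← e2, hw.mul]
          rfl
        simp_rw [this]
        rw [sum_const, card_univ, Fintype.card_fin, map_smul, ← Nat.cast_smul_eq_nsmul ℂ,
          smul_apply, smul_smul]
        have : (N : ℂ) * ((1 / (N : ℝ) : ℝ) : ℂ) = 1 := by
          push_cast
          field_simp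
        rw [this, one_smul]
      rw [e1]
      refine (row h w c hc0 hc (Fin N) z (fun j => w (y (i, j)) ξ)).trans ?_
      have h0 : (0 : ℝ) ≤ ∑ j, ‖w (y (i, j)) ξ‖ ^ 2 := sum_nonneg fun _ _ => by positivity
      have h3 : ‖∑ j, star (z j) * z j‖ + ‖∑ j, z j * star (z j)‖ ≤ 1 + 1 / (N : ℝ) := by
        linarith
      gcongr
    calc ∑ i, ‖w (x i) ξ‖ ^ 2 ≤
          ∑ i, 3 * c ^ 2 * (1 + 1 / (N : ℝ)) * ∑ j, ‖w (y (i, j)) ξ‖ ^ 2 :=
            sum_le_sum fun i _ => hx i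
      _ = 3 * c ^ 2 * (1 + 1 / (N : ℝ)) * ∑ p, ‖w (y p) ξ‖ ^ 2 := by
          rw [← mul_sum, Fintype.sum_prod_type]
      _ ≤ 3 * c ^ 2 * (1 + 1 / (N : ℝ)) * (3 * c ^ 2 * (a + b * (1 / (N : ℝ))) * ‖ξ‖ ^ 2) := by
          gcongr
      _ = _ := by ring
  -- the limit
  have hlim : Filter.Tendsto (fun N : ℕ =>
      9 * c ^ 4 * (1 + 1 / (N : ℝ)) * (a + b * (1 / (N : ℝ))) * ‖ξ‖ ^ 2) Filter.atTop
      (nhds (9 * c ^ 4 * (1 + 0) * (a + b * 0) * ‖ξ‖ ^ 2)) := by
    have h0 : Filter.Tendsto (fun N : ℕ => 1 / (N : ℝ)) Filter.atTop (nhds 0) :=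
      tendsto_one_div_atTop_nhds_zero_nat
    exact ((((tendsto_const_nhds.add h0).const_mul _).mul
      (tendsto_const_nhds.add (h0.const_mul b))).mul_const _)
  have := ge_of_tendsto hlim (Filter.eventually_atTop.2 ⟨1, fun N hN => key N hN⟩)
  refine this.trans (le_of_eq ?_)
  ring

end H759R2.Kad
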