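import Mathlib
import Pool.Agent.H759R2.Kad.Props7
import Pool.Agent.H697R2.Kad5.Q17

open scoped ComplexOrder InnerProductSpace ComplexConjugate
open Finset

noncomputable section

namespace H759R2.Kad

universe u v

open Q17aux in
theorem prove7_isom (h : Q_icol.{u, v}) : Q_isom.{u, v} := by
  intro F _ _ _ s₁ s₂ h1 h2 h12 H _ _ _ w hw c hc1 hc m X
  have hc0 : 0 ≤ c := by linarith
  set S : Fin m → F := fun j => SS s₁ s₂ j with hSdef
  have hS : ∀ i j, star (S i) * S j = if i = j then 1 else 0 := by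
    intro i j
    simp only [hSdef]
    rw [SS_rel h1 h2 h12]
    simp [Fin.ext_iff]
  have hSi : ∀ i, star (S i) * S i = 1 := fun i => by rw [hS]; simp
  have hone : ‖(1 : F)‖ ≤ 1 := by
    have h0 : ‖(1 : F)‖ * ‖(1 : F)‖ = ‖(1 : F)‖ := by
      rw [← CStarRing.norm_star_mul_self]; simp
    nlinarith [norm_nonneg (1 : F)]
  set y : F := ∑ i, ∑ j, S i * X i j * star (S j) with hy
  -- the norm of `y`
  have hyX : ‖y‖ ≤ ‖X‖ := by
    rcases Nat.eq_zero_or_pos m with hm | hm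
    · subst hm
      rw [hy]; simp
    · let i0 : Fin m := ⟨0, hm⟩
      let R : CStarMatrix (Fin m) (Fin m) F := CStarMatrix.ofMatrix fun i j => if i = i0 then S j else 0
      have hRe : ∀ i j, R i j = if i = i0 then S j else 0 := fun i j => rfl
      have hRR : star R * R = 1 := by
        ext i j
        rw [CStarMatrix.mul_apply, CStarMatrix.one_apply]
        simp only [CStarMatrix.star_apply]
        rw [sum_eq_single i0]
        · rw [hRe, hRe, if_pos rfl, if_pos rfl, hS]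
        · intro k _ hk
          rw [hRe, if_neg hk, star_zero, zero_mul]
        · simp
      have hR : ‖R‖ ≤ 1 := by
        have h0 : ‖R‖ * ‖R‖ = ‖(1 : CStarMatrix (Fin m) (Fin m) F)‖ := by
          rw [← CStarRing.norm_star_mul_self, hRR]
        have h3 : ‖(1 : CStarMatrix (Fin m) (Fin m) F)‖ ≤ 1 := by
          have h4 : ‖(1 : CStarMatrix (Fin m) (Fin m) F)‖ * ‖(1 : CStarMatrix (Fin m) (Fin m) F)‖ =
              ‖(1 : CStarMatrix (Fin m) (Fin m) F)‖ := by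
            rw [← CStarRing.norm_star_mul_self]; simp
          nlinarith [norm_nonneg (1 : CStarMatrix (Fin m) (Fin m) F)]
        nlinarith [norm_nonneg R]
      have hent : (R * X * star R) i0 i0 = y := by
        rw [CStarMatrix.mul_apply]
        simp only [CStarMatrix.mul_apply, CStarMatrix.star_apply, hRe, if_true, sum_mul]
        rw [sum_comm]
      calc ‖y‖ = ‖(R * X * star R) i0 i0‖ := by rw [hent]
        _ ≤ ‖R * X * star R‖ := CStarMatrix.norm_entry_le_norm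
        _ ≤ ‖R‖ * ‖X‖ * ‖star R‖ := (norm_mul_le _ _).trans
            (mul_le_mul_of_nonneg_right (norm_mul_le _ _) (norm_nonneg _))
        _ ≤ 1 * ‖X‖ * 1 := by
            rw [norm_star]
            gcongr
        _ = ‖X‖ := by ring
  have hX : ∀ i j, X i j = star (S i) * y * S j := by
    intro i j
    rw [hy, mul_sum, sum_mul, sum_eq_single i]
    · rw [mul_sum, sum_mul, sum_eq_single j]
      · calc X i j = (star (S i) * S i) * X i j * (star (S j) * S j) := by rw [hSi, hSi]; simp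
          _ = _ := by noncomm_ring
      · intro l _ hl
        calc star (S i) * (S i * X i l * star (S l)) * S j =
            star (S i) * (S i * X i l) * (star (S l) * S j) := by noncomm_ring
          _ = 0 := by rw [hS, if_neg hl, mul_zero]
      · simp
    · intro k _ hk
      rw [mul_sum, sum_mul]
      refine sum_eq_zero fun l _ => ?_
      calc star (S i) * (S k * X k l * star (S l)) * S j =
            (star (S i) * S k) * (X k l * star (S l) * S j) := by noncomm_ring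
          _ = 0 := by rw [hS, if_neg (Ne.symm hk), zero_mul]
    · simp
  have hcolb : ∀ (w' : F →ₗ[ℂ] (H →L[ℂ] H)), IsHom w' → (∀ a, ‖w' a‖ ≤ c * ‖a‖) → ∀ ζ : H,
      ∑ i, ‖w' (star (S i)) ζ‖ ^ 2 ≤ 9 * c ^ 4 * ‖ζ‖ ^ 2 := by
    intro w' hw' hc' ζ
    refine (h F s₁ s₂ h1 h2 h12 H w' hw' c hc1 hc' m (fun i => star (S i)) ζ).trans ?_
    simp only [star_star]
    have h3 := norm_ranges S hS
    calc 9 * c ^ 4 * ‖∑ i, S i * star (S i)‖ * ‖ζ‖ ^ 2 ≤ 9 * c ^ 4 * 1 * ‖ζ‖ ^ 2 := by gcongr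
      _ = _ := by ring
  refine ContinuousLinearMap.opNorm_le_bound _ (by positivity) fun v => ?_
  set ζ : H := w y (∑ j, w (S j) (v j)) with hζ
  have hamp : ∀ i, amp w (Fin m) X v i = w (star (S i)) ζ := by
    intro i
    rw [amp_apply, hζ, map_sum, map_sum]
    refine sum_congr rfl fun j _ => ?_
    rw [hX i j, hw.mul, hw.mul]
    rfl
  have hrow : ‖∑ j, w (S j) (v j)‖ ^ 2 ≤ 9 * c ^ 4 * ∑ j, ‖v j‖ ^ 2 := by
    refine Q17aux.row_of_col (fun j => w (S j)) _ (by positivity) ?_ _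
    intro u
    have := hcolb (wst w) (wst_hom hw) (wst_norm hc) u
    simp only [wst_apply, star_star] at this
    exact this
  have hv : ‖v‖ ^ 2 = ∑ j, ‖v j‖ ^ 2 := PiLp.norm_sq_eq_of_L2 _ v
  have hζn : ‖ζ‖ ^ 2 ≤ (c * ‖X‖) ^ 2 * (9 * c ^ 4 * ‖v‖ ^ 2) := by
    have h3 : ‖ζ‖ ≤ (c * ‖X‖) * ‖∑ j, w (S j) (v j)‖ := by
      calc ‖ζ‖ ≤ ‖w y‖ * ‖∑ j, w (S j) (v j)‖ := (w y).le_opNorm _
        _ ≤ (c * ‖X‖) * ‖∑ j, w (S j) (v j)‖ := by
            refine mul_le_mul_of_nonneg_right ((hc y).trans ?_) (norm_nonneg _)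
            exact mul_le_mul_of_nonneg_left hyX hc0
    calc ‖ζ‖ ^ 2 ≤ ((c * ‖X‖) * ‖∑ j, w (S j) (v j)‖) ^ 2 :=
          pow_le_pow_left₀ (norm_nonneg _) h3 2
      _ = (c * ‖X‖) ^ 2 * ‖∑ j, w (S j) (v j)‖ ^ 2 := by ring
      _ ≤ (c * ‖X‖) ^ 2 * (9 * c ^ 4 * ‖v‖ ^ 2) := by
          rw [hv]
          exact mul_le_mul_of_nonneg_left hrow (by positivity)
  have hfin : ‖amp w (Fin m) X v‖ ^ 2 ≤ (9 * c ^ 5 * ‖X‖ * ‖v‖) ^ 2 := by
    rw [PiLp.norm_sq_eq_of_L2]
    simp only [hamp]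
    calc ∑ i, ‖w (star (S i)) ζ‖ ^ 2 ≤ 9 * c ^ 4 * ‖ζ‖ ^ 2 := hcolb w hw hc ζ
      _ ≤ 9 * c ^ 4 * ((c * ‖X‖) ^ 2 * (9 * c ^ 4 * ‖v‖ ^ 2)) := by gcongr
      _ = (9 * c ^ 5 * ‖X‖ * ‖v‖) ^ 2 := by ring
  exact (pow_le_pow_iff_left₀ (norm_nonneg _) (by positivity) two_ne_zero).1 hfin

end H759R2.Kad
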