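import Mathlib
import Pool.Agent.H759R2.Kad.Props7
import Pool.Agent.H697R2.Kad5.Q17

open scoped ComplexOrder InnerProductSpace ComplexConjugate
open Finset

noncomputable section

namespace H759R2.Kad

universe u v

namespace R4aux

/-- Approximation of finitely many elements of a commutative C*-algebra. -/
theorem approx (Z : Type u) [CommCStarAlgebra Z] (ι : Type) [Fintype ι] (x : ι → Z) (ε : ℝ)
    (hε : 0 < ε) : ∃ (N : ℕ) (g : Fin N → Z) (ρ : Fin N → (Z →⋆ₐ[ℂ] ℂ)),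
      (∀ k, star (g k) = g k) ∧ ∑ k, g k * g k = 1 ∧
      ∀ i, ‖x i - ∑ k, (ρ k (x i)) • (g k * g k)‖ ≤ ε := by
  classical
  let Ω := WeakDual.characterSpace ℂ Z
  let Φ : Z ≃⋆ₐ[ℂ] C(Ω, ℂ) := gelfandStarTransform Z
  let F : Ω → (ι → ℂ) := fun ω i => Φ (x i) ω
  have hF : Continuous F := continuous_pi fun i => (Φ (x i)).continuous
  obtain ⟨t, ht⟩ := isCompact_univ.elim_nhds_subcover (fun ω : Ω => F ⁻¹' Metric.ball (F ω) ε)
    (fun ω _ => (Metric.isOpen_ball.preimage hF).mem_nhds (by simp [hε]))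
  let pts : Fin t.card → Ω := fun k => (t.equivFin.symm k : Ω)
  have hpts : ∀ ω : Ω, ∃ k, dist (F ω) (F (pts k)) < ε := by
    intro ω
    have := ht.2 (Set.mem_univ ω)
    simp only [Set.mem_iUnion, Set.mem_preimage, Metric.mem_ball, exists_prop] at this
    obtain ⟨y, hy, hyd⟩ := this
    refine ⟨t.equivFin ⟨y, hy⟩, ?_⟩
    simp only [pts, Equiv.symm_apply_apply]
    exact hyd
  let τ : Fin t.card → Ω → ℝ := fun k ω => max 0 (ε - dist (F ω) (F (pts k)))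
  have hτc : ∀ k, Continuous (τ k) := fun k =>
    continuous_const.max (continuous_const.sub (hF.dist continuous_const))
  have hτ0 : ∀ k ω, 0 ≤ τ k ω := fun k ω => le_max_left _ _
  let T : Ω → ℝ := fun ω => ∑ k, τ k ω
  have hTc : Continuous T := continuous_finsetSum _ fun k _ => hτc k
  have hT0 : ∀ ω, 0 < T ω := by
    intro ω
    obtain ⟨k, hk⟩ := hpts ω
    have h1 : 0 < τ k ω := lt_max_of_lt_right (by linarith)
    exact lt_of_lt_of_le h1 (single_le_sum (fun i _ => hτ0 i ω) (mem_univ k))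
  let f : Fin t.card → Ω → ℝ := fun k ω => τ k ω / T ω
  have hfc : ∀ k, Continuous (f k) := fun k => (hτc k).div hTc fun ω => (hT0 ω).ne'
  have hf0 : ∀ k ω, 0 ≤ f k ω := fun k ω => div_nonneg (hτ0 k ω) (hT0 ω).le
  have hf1 : ∀ ω, ∑ k, f k ω = 1 := by
    intro ω
    simp only [f]
    rw [← sum_div]
    exact div_self (hT0 ω).ne'
  have hfd : ∀ k ω, f k ω ≠ 0 → dist (F ω) (F (pts k)) < ε := by
    intro k ω h
    by_contra hcon
    apply h
    simp only [f, τ]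
    rw [max_eq_left (by linarith), zero_div]
  let gh : Fin t.card → C(Ω, ℂ) := fun k =>
    ⟨fun ω => ((√(f k ω) : ℝ) : ℂ), Complex.continuous_ofReal.comp (hfc k).sqrt⟩
  have hgg : ∀ k ω, (gh k * gh k) ω = ((f k ω : ℝ) : ℂ) := by
    intro k ω
    simp only [gh, ContinuousMap.mul_apply, ContinuousMap.coe_mk]
    rw [← Complex.ofReal_mul, Real.mul_self_sqrt (hf0 k ω)]
  refine ⟨t.card, fun k => Φ.symm (gh k),
    fun k => (ContinuousMap.evalStarAlgHom ℂ ℂ (pts k)).comp (Φ : Z →⋆ₐ[ℂ] C(Ω, ℂ)), ?_, ?_, ?_⟩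
  · intro k
    rw [← map_star]
    congr 1
    ext ω
    simp [gh]
  · have : ∑ k, gh k * gh k = 1 := by
      ext ω
      rw [ContinuousMap.sum_apply]
      simp_rw [hgg]
      rw [← Complex.ofReal_sum, hf1]
      simp
    simp_rw [← map_mul]
    rw [← map_sum, this, map_one]
  · intro i
    have hiso : ∀ z : Z, ‖z‖ = ‖Φ z‖ := by
      intro z
      have := (gelfandTransform_isometry Z).norm_map_of_map_zero (map_zero _) z
      exact this.symm
    rw [hiso]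
    have e1 : Φ (x i - ∑ k, (((ContinuousMap.evalStarAlgHom ℂ ℂ (pts k)).comp
        (Φ : Z →⋆ₐ[ℂ] C(Ω, ℂ))) (x i)) • (Φ.symm (gh k) * Φ.symm (gh k))) =
        Φ (x i) - ∑ k, (Φ (x i) (pts k)) • (gh k * gh k) := by
      rw [map_sub, map_sum]
      congr 1
      refine sum_congr rfl fun k _ => ?_
      rw [map_smul, map_mul, StarAlgEquiv.apply_symm_apply]
      rfl
    rw [e1, ContinuousMap.norm_le _ hε.le]
    intro ω
    have e2 : (Φ (x i) - ∑ k, (Φ (x i) (pts k)) • (gh k * gh k)) ω =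
        ∑ k, ((f k ω : ℝ) : ℂ) * (F ω i - F (pts k) i) := by
      rw [ContinuousMap.sub_apply, ContinuousMap.sum_apply]
      simp only [ContinuousMap.smul_apply, smul_eq_mul, hgg, mul_sub, sum_sub_distrib]
      rw [← sum_mul, ← Complex.ofReal_sum, hf1]
      simp [F, mul_comm]
    rw [e2]
    calc ‖∑ k, ((f k ω : ℝ) : ℂ) * (F ω i - F (pts k) i)‖ ≤
          ∑ k, ‖((f k ω : ℝ) : ℂ) * (F ω i - F (pts k) i)‖ := norm_sum_le _ _
      _ ≤ ∑ k, f k ω * ε := by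
          refine sum_le_sum fun k _ => ?_
          rw [norm_mul, Complex.norm_real, Real.norm_of_nonneg (hf0 k ω)]
          rcases eq_or_ne (f k ω) 0 with h0 | h0
          · rw [h0]; simp
          · refine mul_le_mul_of_nonneg_left ?_ (hf0 k ω)
            rw [← dist_eq_norm]
            exact (dist_le_pi_dist (F ω) (F (pts k)) i).trans (hfd k ω h0).le
      _ = ε := by rw [← sum_mul, hf1, one_mul]

section main

variable {Z : Type u} [CStarAlgebra Z]
variable {H : Type v} [NormedAddCommGroup H] [InnerProductSpace ℂ H] [CompleteSpace H]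

/-- scalar representation -/
def scal (H : Type v) [NormedAddCommGroup H] [InnerProductSpace ℂ H] [CompleteSpace H]
    (ρ : Z →⋆ₐ[ℂ] ℂ) : Z →⋆ₐ[ℂ] (H →L[ℂ] H) where
  toFun a := ρ a • (1 : H →L[ℂ] H)
  map_one' := by simp
  map_mul' a b := by rw [map_mul, smul_mul_smul_comm, one_mul]
  map_zero' := by simp
  map_add' a b := by rw [map_add, add_smul]
  commutes' r := by
    rw [Algebra.algebraMap_eq_smul_one, map_smul, map_one, Algebra.algebraMap_eq_smul_one]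
    simp
  map_star' a := by rw [map_star, star_smul, star_one]

theorem scal_apply (ρ : Z →⋆ₐ[ℂ] ℂ) (a : Z) (x : H) : scal H ρ a x = ρ a • x := rfl

omit [InnerProductSpace ℂ H] [CompleteSpace H] in
theorem norm_le_sum {m : ℕ} (u : HH (Fin m) H) : ‖u‖ ≤ ∑ i, ‖u i‖ := by
  have h1 : ‖u‖ ^ 2 ≤ (∑ i, ‖u i‖) ^ 2 := by
    rw [PiLp.norm_sq_eq_of_L2, sq (∑ i, ‖u i‖), sum_mul_sum]
    refine sum_le_sum fun i _ => ?_
    rw [sq]
    exact single_le_sum (f := fun j => ‖u i‖ * ‖u j‖) (fun j _ => by positivity) (mem_univ i)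
  exact (pow_le_pow_iff_left₀ (norm_nonneg _) (sum_nonneg fun _ _ => norm_nonneg _)
    two_ne_zero).1 h1

omit [CompleteSpace H] in
theorem amp_entry (w : Z →ₗ[ℂ] (H →L[ℂ] H)) (c : ℝ) (hc0 : 0 ≤ c) (hc : ∀ a, ‖w a‖ ≤ c * ‖a‖)
    {m : ℕ} (Y : CStarMatrix (Fin m) (Fin m) Z) (v : HH (Fin m) H) :
    ‖amp w (Fin m) Y v‖ ≤ c * (∑ i, ∑ j, ‖Y i j‖) * ‖v‖ := by
  refine (norm_le_sum _).trans ?_
  rw [mul_sum, sum_mul]
  refine sum_le_sum fun i _ => ?_
  rw [amp_apply, mul_sum, sum_mul]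
  refine (norm_sum_le _ _).trans (sum_le_sum fun j _ => ?_)
  calc ‖w (Y i j) (v j)‖ ≤ ‖w (Y i j)‖ * ‖v j‖ := (w (Y i j)).le_opNorm _
    _ ≤ (c * ‖Y i j‖) * ‖v‖ := by
        refine mul_le_mul (hc _) (PiLp.norm_apply_le v j) (norm_nonneg _) (by positivity)

end main

end R4aux

open R4aux Q17aux in
theorem prove7_comm (h : St_gt.{u, v}) : R_comm.{u, v} := by
  intro Z _ _ _ hcomm H _ _ _ w hw c hc1 hc m X
  have hc0 : 0 ≤ c := by linarith
  refine ContinuousLinearMap.opNorm_le_bound _ (by positivity) fun v => ?_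
  -- it is enough to have the bound up to `ε`
  refine le_of_forall_pos_le_add fun δ hδ => ?_
  set ε : ℝ := δ / (c * (m * m) * ‖v‖ + 1) with hεdef
  have hε : 0 < ε := by positivity
  letI : CommCStarAlgebra Z := { (inferInstance : CStarAlgebra Z) with mul_comm := hcomm }
  obtain ⟨N, g, ρ, hg1, hg2, hg3⟩ := approx Z (Fin m × Fin m) (fun p => X p.1 p.2) ε hε
  let X' : CStarMatrix (Fin m) (Fin m) Z :=
    CStarMatrix.ofMatrix fun i j => ∑ k, (ρ k (X i j)) • (g k * g k)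
  have hX'e : ∀ i j, X' i j = ∑ k, (ρ k (X i j)) • (g k * g k) := fun i j => rfl
  have hone : ‖(1 : Z)‖ ≤ 1 := by
    have h0 : ‖(1 : Z)‖ * ‖(1 : Z)‖ = ‖(1 : Z)‖ := by
      rw [← CStarRing.norm_star_mul_self]; simp
    nlinarith [norm_nonneg (1 : Z)]
  have hg4 : ‖∑ k, star (g k) * g k‖ + ‖∑ k, g k * star (g k)‖ ≤ 2 := by
    simp_rw [hg1]
    rw [hg2]
    linarith
  -- the vectors
  let vk : Fin N → HH (Fin m) H := fun k => WithLp.toLp 2 fun j => w (g k) (v j)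
  have hvk : ∀ k j, vk k j = w (g k) (v j) := fun k j => rfl
  have hvn : ‖v‖ ^ 2 = ∑ j, ‖v j‖ ^ 2 := PiLp.norm_sq_eq_of_L2 _ v
  have hvks : ∑ k, ‖vk k‖ ^ 2 ≤ 6 * c ^ 2 * ‖v‖ ^ 2 := by
    simp_rw [PiLp.norm_sq_eq_of_L2, hvk]
    rw [sum_comm, mul_sum]
    refine sum_le_sum fun j _ => ?_
    refine (col h w c hc0 hc (Fin N) g (v j)).trans ?_
    have : 3 * c ^ 2 * (‖∑ k, star (g k) * g k‖ + ‖∑ k, g k * star (g k)‖) ≤ 6 * c ^ 2 := by
      nlinarith [sq_nonneg c]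
    exact mul_le_mul_of_nonneg_right this (by positivity)
  have hamp : ∀ i, amp w (Fin m) X' v i =
      ∑ k, w (g k) (ampHom (scal H (ρ k)) (Fin m) X (vk k) i) := by
    intro i
    rw [amp_apply]
    have e1 : ∀ j, w (X' i j) (v j) = ∑ k, w (g k) ((scal H (ρ k)) (X i j) (vk k j)) := by
      intro j
      rw [hX'e, map_sum, _root_.sum_apply]
      refine sum_congr rfl fun k _ => ?_
      rw [map_smul, hw.mul, scal_apply, map_smul, hvk]
      rfl
    simp_rw [e1]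
    rw [sum_comm]
    refine sum_congr rfl fun k _ => ?_
    rw [ampHom_apply, amp_apply, map_sum]
    rfl
  have hmain : ‖amp w (Fin m) X' v‖ ^ 2 ≤ (6 * c ^ 2 * ‖X‖ * ‖v‖) ^ 2 := by
    have hrow : ∀ i, ‖amp w (Fin m) X' v i‖ ^ 2 ≤
        6 * c ^ 2 * ∑ k, ‖ampHom (scal H (ρ k)) (Fin m) X (vk k) i‖ ^ 2 := by
      intro i
      rw [hamp]
      refine (row h w c hc0 hc (Fin N) g _).trans ?_
      have h1 : 3 * c ^ 2 * (‖∑ k, star (g k) * g k‖ + ‖∑ k, g k * star (g k)‖) ≤ 6 * c ^ 2 := by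
        nlinarith [sq_nonneg c]
      exact mul_le_mul_of_nonneg_right h1 (sum_nonneg fun _ _ => by positivity)
    have hcontr : ∀ k, ‖ampHom (scal H (ρ k)) (Fin m) X (vk k)‖ ^ 2 ≤ ‖X‖ ^ 2 * ‖vk k‖ ^ 2 := by
      intro k
      rw [← mul_pow]
      refine pow_le_pow_left₀ (norm_nonneg _) ?_ 2
      refine ((ampHom (scal H (ρ k)) (Fin m) X).le_opNorm _).trans ?_
      exact mul_le_mul_of_nonneg_right
        (NonUnitalStarAlgHom.norm_apply_le (ampHom (scal H (ρ k)) (Fin m)) X) (norm_nonneg _)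
    rw [PiLp.norm_sq_eq_of_L2]
    calc ∑ i, ‖amp w (Fin m) X' v i‖ ^ 2 ≤
          ∑ i, 6 * c ^ 2 * ∑ k, ‖ampHom (scal H (ρ k)) (Fin m) X (vk k) i‖ ^ 2 :=
            sum_le_sum fun i _ => hrow i
      _ = 6 * c ^ 2 * ∑ k, ‖ampHom (scal H (ρ k)) (Fin m) X (vk k)‖ ^ 2 := by
          rw [← mul_sum, sum_comm]
          simp_rw [PiLp.norm_sq_eq_of_L2]
      _ ≤ 6 * c ^ 2 * ∑ k, ‖X‖ ^ 2 * ‖vk k‖ ^ 2 := by
          gcongr with k _
          exact hcontr k
      _ = 6 * c ^ 2 * (‖X‖ ^ 2 * ∑ k, ‖vk k‖ ^ 2) := by rw [← mul_sum univ (fun k => ‖vk k‖ ^ 2)]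
      _ ≤ 6 * c ^ 2 * (‖X‖ ^ 2 * (6 * c ^ 2 * ‖v‖ ^ 2)) := by gcongr
      _ = _ := by ring
  have hmain' : ‖amp w (Fin m) X' v‖ ≤ 6 * c ^ 2 * ‖X‖ * ‖v‖ :=
    (pow_le_pow_iff_left₀ (norm_nonneg _) (by positivity) two_ne_zero).1 hmain
  have hdiff : ‖amp w (Fin m) (X - X') v‖ ≤ δ := by
    refine (amp_entry w c hc0 hc (X - X') v).trans ?_
    have h1 : ∑ i : Fin m, ∑ j : Fin m, ‖(X - X') i j‖ ≤ (m * m) * ε := by
      calc ∑ i : Fin m, ∑ j : Fin m, ‖(X - X') i j‖ ≤ ∑ i : Fin m, ∑ j : Fin m, ε := by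
            refine sum_le_sum fun i _ => sum_le_sum fun j _ => ?_
            rw [CStarMatrix.sub_apply, hX'e]
            exact hg3 (i, j)
        _ = (m * m) * ε := by simp [mul_assoc]
    calc c * (∑ i : Fin m, ∑ j : Fin m, ‖(X - X') i j‖) * ‖v‖ ≤ c * ((m * m) * ε) * ‖v‖ := by
          gcongr
      _ = (c * (m * m) * ‖v‖) * ε := by ring
      _ ≤ (c * (m * m) * ‖v‖ + 1) * ε := by
          refine mul_le_mul_of_nonneg_right (by linarith) hε.le
      _ = δ := by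
          rw [hεdef]
          field_simp
  have hsum : amp w (Fin m) X v = amp w (Fin m) X' v + amp w (Fin m) (X - X') v := by
    rw [map_sub, sub_apply]
    abel
  rw [hsum]
  refine (norm_add_le _ _).trans ?_
  linarith

end H759R2.Kad
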