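import Mathlib
import Pool.Agent.H759R2.Kad.Props6

open scoped ComplexOrder InnerProductSpace ComplexConjugate
open Finset

noncomputable section

namespace H759R2.Kad

universe u v

namespace W15aux

variable {A : Type u} [CStarAlgebra A]

/-- the sum of the compressed functionals -/
def psi0 (φ : A →ₗ[ℂ] ℂ) {n : ℕ} (w : Fin n → A) : A →ₗ[ℂ] ℂ :=
  ∑ j, φ ∘ₗ (LinearMap.mulLeft ℂ (star (w j)) ∘ₗ LinearMap.mulRight ℂ (w j))

theorem psi0_apply (φ : A →ₗ[ℂ] ℂ) {n : ℕ} (w : Fin n → A) (x : A) :
    psi0 φ w x = ∑ j, φ (star (w j) * x * w j) := by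
  simp [psi0, LinearMap.sum_apply, mul_assoc]

/-- a finite sum of `x* x` vanishes only if all the terms vanish -/
theorem sum_zero {n : ℕ} (x : Fin n → A) (h : ∑ j, x j * star (x j) = 0) (j : Fin n) : x j = 0 := by
  letI := CStarAlgebra.spectralOrder A
  letI := CStarAlgebra.spectralOrderedRing A
  have h1 := (Finset.sum_eq_zero_iff_of_nonneg (fun i _ => mul_star_self_nonneg (x i))).1 h j
    (Finset.mem_univ j)
  exact (CStarRing.mul_star_self_eq_zero_iff _).1 h1

end W15aux

open W15aux in
theorem prove6_psi : W_psi.{u} := by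
  intro A _ φ hφ p g z hp hg hg0 hz hzg hfaith n w hw hsum ε hε hnear
  -- g w_j = w_j
  have hgw : ∀ j, g * w j = w j := by
    have h1 : ∑ j, ((1 - g) * w j) * star ((1 - g) * w j) = 0 := by
      have e1 : ∀ j, ((1 - g) * w j) * star ((1 - g) * w j) =
          (1 - g) * (w j * star (w j)) * (1 - g) := by
        intro j
        rw [star_mul, star_sub, star_one, hg.1.1]; noncomm_ring
      simp_rw [e1]
      rw [← sum_mul, ← mul_sum, hsum]
      rw [sub_mul, one_mul, hg.1.2, sub_self, zero_mul]
    intro j
    have := sum_zero _ h1 j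
    rw [sub_mul, one_mul, sub_eq_zero] at this
    exact this.symm
  have hwg : ∀ j, star (w j) * g = star (w j) := by
    intro j
    have := congrArg star (hgw j)
    rwa [star_mul, hg.1.1] at this
  have hpw : ∀ j, p * star (w j) = star (w j) := by
    intro j
    have := congrArg star (hw j).2
    rwa [star_mul, hp.1] at this
  -- values
  have hpsi1 : psi0 φ w 1 = ∑ j, φ (star (w j) * w j) := by
    rw [psi0_apply]; simp
  have hpsiz : psi0 φ w z = psi0 φ w 1 := by
    rw [psi0_apply, psi0_apply]
    refine sum_congr rfl fun j _ => ?_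
    rw [mul_one, mul_assoc]
    congr 2
    rw [← hgw j, ← mul_assoc, hzg]
  have hpos : ∀ a, 0 ≤ psi0 φ w (star a * a) := by
    intro a
    rw [psi0_apply]
    refine sum_nonneg fun j _ => ?_
    have : star (w j) * (star a * a) * w j = star (a * w j) * (a * w j) := by
      rw [star_mul]; noncomm_ring
    rw [this]
    exact hφ _
  have hne : psi0 φ w 1 ≠ 0 := by
    intro h0
    rw [hpsi1] at h0
    have h1 := (Finset.sum_eq_zero_iff_of_nonneg (fun i _ => hφ (w i))).1 h0
    apply hg0
    rw [← hsum]
    refine sum_eq_zero fun j hj => ?_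
    have h2 := h1 j hj
    have h3 : star (w j) * w j = 0 := by
      refine hfaith _ ⟨by simp, ?_⟩ ?_ h2
      · have := (hw j).1
        unfold PIs at this
        rw [mul_assoc, ← mul_assoc (w j), this]
      · rw [← mul_assoc, hpw]
    have h4 := (CStarRing.star_mul_self_eq_zero_iff _).1 h3
    rw [h4]; simp
  have hge : 0 ≤ psi0 φ w 1 := by
    have := hpos 1
    simpa using this
  obtain ⟨c, hc⟩ : ∃ c : ℝ, psi0 φ w 1 = (c : ℂ) := by
    refine ⟨(psi0 φ w 1).re, ?_⟩
    have := (Complex.le_def.1 hge).2
    apply Complex.ext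
    · simp
    · simpa using this.symm
  have hc0 : 0 < c := by
    rw [hc] at hne hge
    have h1 : (0 : ℝ) ≤ c := by exact_mod_cast hge
    have h2 : c ≠ 0 := by exact_mod_cast hne
    exact lt_of_le_of_ne h1 (Ne.symm h2)
  -- the inequality
  have hineq : ∀ x, (psi0 φ w (x * star x)).re ≤ (1 + ε) * (psi0 φ w (star x * x)).re := by
    intro x
    have e1 : psi0 φ w (x * star x) = ∑ j, ∑ k, φ ((star (w j) * x * w k) *
        star (star (w j) * x * w k)) := by
      rw [psi0_apply]
      refine sum_congr rfl fun j _ => ?_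
      rw [← map_sum]
      congr 1
      have : ∀ k, (star (w j) * x * w k) * star (star (w j) * x * w k) =
          star (w j) * x * (w k * star (w k)) * (star x * w j) := by
        intro k
        rw [star_mul, star_mul, star_star]; noncomm_ring
      simp_rw [this]
      rw [← sum_mul, ← mul_sum, hsum]
      have : star (w j) * x * g = star (w j) * x := by
        rw [mul_assoc, ← hg.2, ← mul_assoc, hwg]
      rw [this]; noncomm_ring
    have e2 : psi0 φ w (star x * x) = ∑ j, ∑ k, φ (star (star (w j) * x * w k) *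
        (star (w j) * x * w k)) := by
      rw [psi0_apply, sum_comm]
      refine sum_congr rfl fun k _ => ?_
      rw [← map_sum]
      congr 1
      have : ∀ j, star (star (w j) * x * w k) * (star (w j) * x * w k) =
          star (w k) * star x * (w j * star (w j)) * (x * w k) := by
        intro j
        rw [star_mul, star_mul, star_star]; noncomm_ring
      simp_rw [this]
      rw [← sum_mul, ← mul_sum, hsum]
      have : star (w k) * star x * g = star (w k) * star x := by
        rw [mul_assoc, ← hg.2, ← mul_assoc, hwg]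
      rw [this]; noncomm_ring
    rw [e1, e2]
    simp only [Complex.re_sum]
    rw [mul_sum]
    refine sum_le_sum fun j _ => ?_
    rw [mul_sum]
    refine sum_le_sum fun k _ => ?_
    apply hnear
    · rw [← mul_assoc, ← mul_assoc, hpw]
    · rw [mul_assoc, (hw k).2]
  refine ⟨((c⁻¹ : ℝ) : ℂ) • psi0 φ w, ?_, ?_, ?_, ?_⟩
  · intro a
    rw [LinearMap.smul_apply, smul_eq_mul]
    refine mul_nonneg ?_ (hpos a)
    have : (0 : ℝ) ≤ c⁻¹ := by positivity
    exact_mod_cast this
  · rw [LinearMap.smul_apply, smul_eq_mul, hc]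
    have : c⁻¹ * c = 1 := inv_mul_cancel₀ hc0.ne'
    exact_mod_cast this
  · rw [LinearMap.smul_apply, smul_eq_mul, hpsiz, hc]
    have : c⁻¹ * c = 1 := inv_mul_cancel₀ hc0.ne'
    exact_mod_cast this
  · intro x
    rw [LinearMap.smul_apply, LinearMap.smul_apply, smul_eq_mul, smul_eq_mul,
      Complex.re_ofReal_mul, Complex.re_ofReal_mul]
    have h1 := hineq x
    have h2 : (0 : ℝ) < c⁻¹ := by positivity
    nlinarith [mul_le_mul_of_nonneg_left h1 h2.le]

end H759R2.Kad
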